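import Pool.Agent.Y720.MZ.Quar

/-! A prime which divides the ordinate exactly once: the difference has infinite order -/

set_option autoImplicit false

open WeierstrassCurve Pool.Agent.Y720.MZ

namespace Pool.Agent.L5helper6.KM

/-- the numerator of the abscissa -/
def nX (w q₁ q₂ : ℤ) : ℤ := q₁ ^ 2 - 4 * w ^ 2 * q₂

/-- the numerator of the ordinate -/
def nY (w q₁ q₂ q₃ : ℤ) : ℤ := q₁ * nX w q₁ q₂ + 8 * w ^ 4 * q₃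

/-- the numerator of the derivative -/
def nR (w q₁ q₂ q₃ q₄ : ℤ) : ℤ :=
  3 * nX w q₁ q₂ ^ 2 + 8 * w ^ 2 * q₂ * nX w q₁ q₂ + 16 * w ^ 4 * (q₁ * q₃ - 4 * w ^ 2 * q₄)

section

variable (p : ℕ) [hp : Fact p.Prime]

lemma pad_na : IsNonarchimedean (Rat.AbsoluteValue.padic p : AbsoluteValue ℚ ℝ) := by
  intro x y
  simp only [Rat.AbsoluteValue.padic_eq_padicNorm]
  exact_mod_cast padicNorm.nonarchimedean

lemma pad_p : (Rat.AbsoluteValue.padic p : AbsoluteValue ℚ ℝ) (p : ℚ) = (p : ℝ)⁻¹ := by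
  rw [Rat.AbsoluteValue.padic_eq_padicNorm, padicNorm.padicNorm_p hp.out.one_lt]
  simp

variable {p}

lemma pad_unit {z : ℤ} (h : ¬ (p : ℤ) ∣ z) :
    (Rat.AbsoluteValue.padic p : AbsoluteValue ℚ ℝ) (z : ℚ) = 1 := by
  rw [Rat.AbsoluteValue.padic_eq_padicNorm, (padicNorm.int_eq_one_iff z).2 h]
  simp

lemma pad_exact {z : ℤ} (h1 : (p : ℤ) ∣ z) (h2 : ¬ (p : ℤ) ^ 2 ∣ z) :
    (Rat.AbsoluteValue.padic p : AbsoluteValue ℚ ℝ) (z : ℚ) = (p : ℝ)⁻¹ := by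
  obtain ⟨k, rfl⟩ := h1
  have h3 : ¬ (p : ℤ) ∣ k := by
    intro h
    apply h2
    rw [pow_two]
    exact mul_dvd_mul_left _ h
  rw [Int.cast_mul, map_mul, pad_unit h3, mul_one, Int.cast_natCast, pad_p]

end

/-- **The criterion.** -/
theorem io_of_prime {p : ℕ} [hp : Fact p.Prime] (hp3 : 3 ≤ p) {w q₁ q₂ q₃ q₄ : ℤ}
    (hw : ¬ (p : ℤ) ∣ w) (hN : (p : ℤ) ∣ nY w q₁ q₂ q₃) (hN2 : ¬ (p : ℤ) ^ 2 ∣ nY w q₁ q₂ q₃)
    (hR : ¬ (p : ℤ) ∣ nR w q₁ q₂ q₃ q₄) [DecidableEq ℚ]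
    (h : (cv (q₂ : ℚ) (rb (w : ℚ) q₁ q₃ q₄) (rc (w : ℚ) q₁ q₂ q₃ q₄)).toAffine.Nonsingular
      (xs (w : ℚ) q₁ q₂) (ys (w : ℚ) q₁ q₂ q₃)) (n : ℕ) (hn : n ≠ 0) :
    n • (.some (xs (w : ℚ) q₁ q₂) (ys (w : ℚ) q₁ q₂ q₃) h :
      Pt (q₂ : ℚ) (rb (w : ℚ) q₁ q₃ q₄) (rc (w : ℚ) q₁ q₂ q₃ q₄)) ≠ 0 := by
  set v : AbsoluteValue ℚ ℝ := Rat.AbsoluteValue.padic p with hv
  have hna : IsNonarchimedean v := pad_na p
  have hp0 : (0 : ℝ) < p := by exact_mod_cast hp.out.pos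
  have hp1 : (1 : ℝ) < p := by exact_mod_cast hp.out.one_lt
  have hvw : v (w : ℚ) = 1 := pad_unit hw
  have hle : ∀ z : ℤ, v (z : ℚ) ≤ 1 := fun z => Rat.AbsoluteValue.padic_le_one p z
  have h2p : ¬ (p : ℤ) ∣ 2 := by
    intro h
    have := Int.le_of_dvd (by norm_num) h
    omega
  have hv2 : v (2 : ℚ) = 1 := by exact_mod_cast pad_unit (p := p) h2p
  have hwQ : (w : ℚ) ≠ 0 := by
    intro h0
    rw [h0, map_zero] at hvw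
    exact zero_ne_one hvw
  have hvN : v (nY w q₁ q₂ q₃ : ℤ) = (p : ℝ)⁻¹ := pad_exact hN hN2
  have hvR : v (nR w q₁ q₂ q₃ q₄ : ℤ) = 1 := pad_unit hR
  have hNQ : ((nY w q₁ q₂ q₃ : ℤ) : ℚ) ≠ 0 := by
    intro h0
    rw [h0, map_zero] at hvN
    exact (inv_pos.2 hp0).ne hvN
  have ex : xs (w : ℚ) q₁ q₂ = ((nX w q₁ q₂ : ℤ) : ℚ) / (4 * w ^ 2) := by
    rw [xs, nX]
    push_cast
    field_simp
  have ey : ys (w : ℚ) q₁ q₂ q₃ = ((nY w q₁ q₂ q₃ : ℤ) : ℚ) / (8 * w ^ 3) := by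
    rw [ys, ex, nY]
    push_cast
    field_simp
    ring
  have hy : 2 * ys (w : ℚ) q₁ q₂ q₃ ≠ 0 := by
    rw [ey]
    exact mul_ne_zero two_ne_zero (div_ne_zero hNQ (by positivity))
  set ℓ : ℚ := ((nR w q₁ q₂ q₃ q₄ : ℤ) : ℚ) / (4 * w * ((nY w q₁ q₂ q₃ : ℤ) : ℚ)) with hℓ
  have hℓ1 : ℓ * (2 * ys (w : ℚ) q₁ q₂ q₃) = 3 * xs (w : ℚ) q₁ q₂ ^ 2 +
      2 * (q₂ : ℚ) * xs (w : ℚ) q₁ q₂ + rb (w : ℚ) q₁ q₃ q₄ := by
    rw [hℓ, ex, ey, rb, nR]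
    push_cast
    field_simp
    ring
  obtain ⟨h', he⟩ := dbl_mk h hy hℓ1
  have hvℓ : v ℓ = p := by
    rw [hℓ, map_div₀, hvR, map_mul, map_mul, hvN, hvw]
    have : v (4 : ℚ) = 1 := by
      rw [show (4 : ℚ) = 2 * 2 by norm_num, map_mul, hv2, one_mul]
    rw [this]
    simp
  have hvx : v (xs (w : ℚ) q₁ q₂) ≤ 1 := by
    rw [ex, map_div₀, map_mul, map_pow, hvw]
    have : v (4 : ℚ) = 1 := by
      rw [show (4 : ℚ) = 2 * 2 by norm_num, map_mul, hv2, one_mul]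
    rw [this, one_pow, one_mul, div_one]
    exact hle _
  have hX : v (ℓ ^ 2 - q₂ - xs (w : ℚ) q₁ q₂ - xs (w : ℚ) q₁ q₂) = (p : ℝ) ^ 2 := by
    have e : ℓ ^ 2 - q₂ - xs (w : ℚ) q₁ q₂ - xs (w : ℚ) q₁ q₂ =
        ℓ ^ 2 + (-(q₂ : ℚ) + (-xs (w : ℚ) q₁ q₂ + -xs (w : ℚ) q₁ q₂)) := by ring
    rw [e, na_eq hna, map_pow, hvℓ]
    rw [map_pow, hvℓ]
    refine lt_of_le_of_lt (na_add hna (r := 1) (by rw [v.map_neg]; exact hle _)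
      (na_add hna (by rw [v.map_neg]; exact hvx) (by rw [v.map_neg]; exact hvx))) ?_
    nlinarith
  have hb : v (rb (w : ℚ) q₁ q₃ q₄) ≤ 1 := by
    have := hle (q₁ * q₃ - 4 * w ^ 2 * q₄)
    rw [rb]; push_cast at this; exact this
  have hc : v (rc (w : ℚ) q₁ q₂ q₃ q₄) ≤ 1 := by
    have := hle (q₁ ^ 2 * q₄ + w ^ 2 * q₃ ^ 2 - 4 * w ^ 2 * q₂ * q₄)
    rw [rc]; push_cast at this; exact this
  have key := infinite_order hna (hle q₂) hb hc hp3 (fun k hk1 hk2 => by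
      have : ¬ (p : ℤ) ∣ (k : ℤ) := by
        intro hd
        have := Int.le_of_dvd (by omega) hd
        omega
      exact_mod_cast pad_unit (p := p) this) (by
      rw [hv, pad_p]
      exact inv_lt_one_of_one_lt₀ hp1) h' (by
      rw [hX, hv, pad_p]
      field_simp
      exact hp1) n hn
  intro h0
  apply key
  rw [← he, nsmul_add, h0, add_zero]

end Pool.Agent.L5helper6.KM
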