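import Mathlib

/-! Averaging over two coordinates; the coefficients on a line through the origin -/

set_option autoImplicit false

open Finset

namespace Pool.Agent.L5helper6.KM

/-- **Averaging over two coordinates.** -/
theorem avg {κ : Type*} [Fintype κ] [DecidableEq κ] (I : Finset ℤ) {a b : κ} (hab : a ≠ b)
    (S : (κ → ℤ) → Prop) [DecidablePred S] (E : ℝ)
    (h : ∀ c : κ → ℤ, (#{x ∈ I ×ˢ I |
      S (Function.update (Function.update c a x.1) b x.2)} : ℝ) ≤ E) :
    (#{c ∈ Fintype.piFinset (fun _ : κ => I) | S c} : ℝ) * (#I : ℝ) ^ 2 ≤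
      E * #(Fintype.piFinset (fun _ : κ => I)) := by
  classical
  set B := Fintype.piFinset (fun _ : κ => I) with hB
  have hmem : ∀ c : κ → ℤ, c ∈ B ↔ ∀ i, c i ∈ I := fun c => Fintype.mem_piFinset
  have hup : ∀ (c : κ → ℤ) (x : ℤ × ℤ), c ∈ B → x.1 ∈ I → x.2 ∈ I →
      Function.update (Function.update c a x.1) b x.2 ∈ B := by
    intro c x hc h1 h2
    rw [hmem] at hc ⊢
    intro i
    by_cases hib : i = b
    · subst hib; rw [Function.update_self]; exact h2
    · rw [Function.update_of_ne hib]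
      by_cases hia : i = a
      · subst hia; rw [Function.update_self]; exact h1
      · rw [Function.update_of_ne hia]; exact hc i
  have e1 : #{z ∈ B ×ˢ (I ×ˢ I) | S (Function.update (Function.update z.1 a z.2.1) b z.2.2)} =
      #{z ∈ B ×ˢ (I ×ˢ I) | S z.1} := by
    have hinv : ∀ z : (κ → ℤ) × (ℤ × ℤ),
        (fun z : (κ → ℤ) × (ℤ × ℤ) => (Function.update (Function.update z.1 a z.2.1) b z.2.2,
          (z.1 a, z.1 b))) ((fun z : (κ → ℤ) × (ℤ × ℤ) =>
            (Function.update (Function.update z.1 a z.2.1) b z.2.2, (z.1 a, z.1 b))) z) = z := by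
      rintro ⟨c, s, t⟩
      simp only [Prod.mk.injEq]
      refine ⟨?_, ?_, ?_⟩
      · funext i
        by_cases hib : i = b
        · subst hib; rw [Function.update_self]
        · rw [Function.update_of_ne hib]
          by_cases hia : i = a
          · subst hia; rw [Function.update_self]
          · rw [Function.update_of_ne hia, Function.update_of_ne hib, Function.update_of_ne hia]
      · rw [Function.update_of_ne hab, Function.update_self]
      · rw [Function.update_self]
    refine card_nbij' (fun z : (κ → ℤ) × (ℤ × ℤ) =>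
      (Function.update (Function.update z.1 a z.2.1) b z.2.2, (z.1 a, z.1 b)))
      (fun z : (κ → ℤ) × (ℤ × ℤ) =>
      (Function.update (Function.update z.1 a z.2.1) b z.2.2, (z.1 a, z.1 b))) ?_ ?_ ?_ ?_
    · rintro ⟨c, s, t⟩ hz
      simp only [coe_filter, mem_product, Set.mem_setOf_eq] at hz ⊢
      obtain ⟨⟨h1, h2, h3⟩, h4⟩ := hz
      exact ⟨⟨hup c (s, t) h1 h2 h3, (hmem c).1 h1 a, (hmem c).1 h1 b⟩, h4⟩
    · rintro ⟨c, s, t⟩ hz
      have hi := hinv (c, s, t)
      simp only [coe_filter, mem_product, Set.mem_setOf_eq] at hz ⊢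
      obtain ⟨⟨h1, h2, h3⟩, h4⟩ := hz
      refine ⟨⟨hup c (s, t) h1 h2 h3, (hmem c).1 h1 a, (hmem c).1 h1 b⟩, ?_⟩
      have := congrArg Prod.fst hi
      simp only at this
      rw [this]
      exact h4
    · intro z _; exact hinv z
    · intro z _; exact hinv z
  have e2 : #{z ∈ B ×ˢ (I ×ˢ I) | S z.1} = #{c ∈ B | S c} * (#I * #I) := by
    rw [← card_product I I, ← card_product]
    congr 1
    ext z
    simp only [mem_filter, mem_product]
    tauto
  have e3 : #{z ∈ B ×ˢ (I ×ˢ I) | S (Function.update (Function.update z.1 a z.2.1) b z.2.2)} =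
      ∑ c ∈ B, #{x ∈ I ×ˢ I | S (Function.update (Function.update c a x.1) b x.2)} := by
    rw [card_eq_sum_card_fiberwise (f := Prod.fst) (t := B)]
    · refine sum_congr rfl fun c hc => ?_
      refine card_nbij' Prod.snd (fun x => (c, x)) ?_ ?_ ?_ ?_
      · rintro ⟨c', x⟩ hz
        simp only [coe_filter, mem_filter, mem_product, Set.mem_setOf_eq] at hz ⊢
        obtain ⟨⟨⟨h1, h2⟩, h3⟩, rfl⟩ := hz
        exact ⟨h2, h3⟩
      · intro x hx
        simp only [coe_filter, mem_filter, mem_product, Set.mem_setOf_eq] at hx ⊢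
        exact ⟨⟨⟨hc, hx.1⟩, hx.2⟩, trivial⟩
      · rintro ⟨c', x⟩ hz
        simp only [coe_filter, mem_filter, mem_product, Set.mem_setOf_eq] at hz ⊢
        rw [hz.2]
      · intro x _; rfl
    · intro z hz
      simp only [coe_filter, mem_product, Set.mem_setOf_eq] at hz
      exact hz.1.1
  have e4 : (#{c ∈ B | S c} : ℝ) * (#I : ℝ) ^ 2 =
      ∑ c ∈ B, (#{x ∈ I ×ˢ I | S (Function.update (Function.update c a x.1) b x.2)} : ℝ) := by
    have := (e2.symm.trans e1.symm).trans e3
    have h' : ((#{c ∈ B | S c} * (#I * #I) : ℕ) : ℝ) =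
      ((∑ c ∈ B, #{x ∈ I ×ˢ I | S (Function.update (Function.update c a x.1) b x.2)} : ℕ) : ℝ) := by
      exact_mod_cast this
    push_cast at h'
    rw [← h']; ring
  rw [e4]
  calc _ ≤ ∑ c ∈ B, E := sum_le_sum fun c _ => h c
    _ = E * #B := by rw [sum_const, nsmul_eq_mul, mul_comm]

end Pool.Agent.L5helper6.KM
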