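import Pool.Agent.L5helper6.KM.Res

/-! Pairs of integers in a box which avoid the events at finitely many primes -/

set_option autoImplicit false

open Finset

namespace Pool.Agent.L5helper6.KM

/-- the event at `p` -/
def Ev (p : ℕ) (α β γ δ ε : ℤ) (x : ℤ × ℤ) : Prop :=
  ((p : ℤ) ∣ α + β * x.1 ∧ ¬ (p : ℤ) ^ 2 ∣ α + β * x.1) ∧ ¬ (p : ℤ) ∣ γ + δ * x.1 + ε * x.2

instance (p : ℕ) (α β γ δ ε : ℤ) : DecidablePred (Ev p α β γ δ ε) :=
  fun _ => inferInstanceAs (Decidable (_ ∧ _))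

lemma Ev_iff {p : ℕ} [hp : Fact p.Prime] (α β γ δ ε : ℤ) (x : ℤ × ℤ) :
    Ev p α β γ δ ε x ↔ Evz p (α : ZMod (p ^ 2)) β γ δ ε ((x.1 : ZMod (p ^ 2)), (x.2 : ZMod (p ^ 2))) := by
  have e1 : ((α : ZMod (p ^ 2)) + β * (x.1 : ZMod (p ^ 2))) = ((α + β * x.1 : ℤ) : ZMod (p ^ 2)) := by
    push_cast; rfl
  have e2 : ((γ : ZMod (p ^ 2)) + δ * (x.1 : ZMod (p ^ 2)) + ε * (x.2 : ZMod (p ^ 2))) =
      ((γ + δ * x.1 + ε * x.2 : ℤ) : ZMod (p ^ 2)) := by
    push_cast; rfl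
  rw [Ev, Evz, e1, e2, pcast_mul_int, pcast_mul_int, ne_eq, int_zero]

/-- **Avoiding the events.** -/
theorem count_none (P : Finset ℕ) (hP : ∀ p ∈ P, p.Prime) {α β γ δ ε : ℤ}
    (hβ : ∀ p ∈ P, ¬ (p : ℤ) ∣ β) (hε : ∀ p ∈ P, ¬ (p : ℤ) ∣ ε) (u u' : ℤ) (L : ℕ) :
    (#{x ∈ Ico u (u + L) ×ˢ Ico u' (u' + L) | ∀ p ∈ P, ¬ Ev p α β γ δ ε x} : ℝ) ≤
      (∏ p ∈ P, (1 - prb p)) * ((L : ℝ) + ∏ p ∈ P, (p : ℝ) ^ 2) ^ 2 := by
  classical
  have hf : ∀ i : {p // p ∈ P}, Fact (i.1).Prime := fun i => ⟨hP i.1 i.2⟩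
  set a : {p // p ∈ P} → ℕ := fun i => i.1 ^ 2 with ha
  have hco : Pairwise (Function.onFun Nat.Coprime a) := by
    intro i j hij
    refine Nat.Coprime.pow _ _ ((Nat.coprime_primes (hP i.1 i.2) (hP j.1 j.2)).2 fun h => ?_)
    exact hij (Subtype.ext h)
  set M := ∏ i, a i with hM
  have hM0 : 0 < M := prod_pos fun i _ => pow_pos (hP i.1 i.2).pos 2
  have : NeZero M := ⟨hM0.ne'⟩
  have hMR : (M : ℝ) = ∏ p ∈ P, (p : ℝ) ^ 2 := by
    rw [hM, ← prod_coe_sort P (fun p => (p : ℝ) ^ 2), Nat.cast_prod]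
    refine prod_congr rfl fun i _ => ?_
    simp only [ha]
    push_cast
    rfl
  set e := ZMod.prodEquivPi a hco with he
  have hcast : ∀ (s : ℤ) (i : {p // p ∈ P}), e (s : ZMod M) i = (s : ZMod (a i)) := by
    intro s i
    rw [map_intCast, Pi.intCast_apply]
  set Bad : ∀ i : {p // p ∈ P}, Finset (ZMod (i.1 ^ 2) × ZMod (i.1 ^ 2)) := fun i =>
    {x | ¬ Evz i.1 (α : ZMod (i.1 ^ 2)) β γ δ ε x} with hBad
  set B : Finset (ZMod M × ZMod M) := {x | ∀ i, (e x.1 i, e x.2 i) ∈ Bad i} with hB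
  have hcB : #B ≤ ∏ i, #(Bad i) := by
    rw [← Fintype.card_piFinset]
    refine card_le_card_of_injOn (fun x i => (e x.1 i, e x.2 i)) ?_ ?_
    · intro x hx
      rw [mem_coe, hB, mem_filter] at hx
      rw [mem_coe, Fintype.mem_piFinset]
      exact hx.2
    · intro x _ y _ hxy
      have h1 : e x.1 = e y.1 := by
        funext i
        exact congrArg Prod.fst (congrFun hxy i)
      have h2 : e x.2 = e y.2 := by
        funext i
        exact congrArg Prod.snd (congrFun hxy i)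
      exact Prod.ext (e.injective h1) (e.injective h2)
  have hu : ∀ (z : ℤ) (i : {p // p ∈ P}), ¬ ((i.1 : ℕ) : ℤ) ∣ z → IsUnit (z : ZMod (i.1 ^ 2)) := by
    intro z i hz
    rw [ZMod.coe_int_isUnit_iff_isCoprime]
    push_cast
    refine IsCoprime.pow_left ?_
    exact (Nat.prime_iff_prime_int.1 (hP i.1 i.2)).coprime_iff_not_dvd.2 hz
  have hcBi : ∀ i : {p // p ∈ P}, (#(Bad i) : ℝ) = (1 - prb i.1) * (((i.1 : ℕ) : ℝ) ^ 2) ^ 2 :=
    fun i => card_bad i.1 _ _ _ _ _ (hu β i (hβ i.1 i.2)) (hu ε i (hε i.1 i.2))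
  have hcBR : (#B : ℝ) ≤ (∏ p ∈ P, (1 - prb p)) * (M : ℝ) ^ 2 := by
    have h1 : (#B : ℝ) ≤ ∏ i, (#(Bad i) : ℝ) := by exact_mod_cast hcB
    refine h1.trans_eq ?_
    rw [prod_congr rfl fun i _ => hcBi i, prod_mul_distrib, prod_pow,
      prod_coe_sort P (fun p => 1 - prb p), prod_coe_sort P (fun p => (p : ℝ) ^ 2), hMR]
  -- the fibres
  have hfib : (#{x ∈ Ico u (u + L) ×ˢ Ico u' (u' + L) | ∀ p ∈ P, ¬ Ev p α β γ δ ε x} : ℝ) ≤
      ∑ y ∈ B, ((L : ℝ) / M + 1) * ((L : ℝ) / M + 1) := by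
    rw [card_eq_sum_card_fiberwise (f := fun x : ℤ × ℤ => ((x.1 : ZMod M), (x.2 : ZMod M)))
      (t := B)]
    · push_cast
      refine sum_le_sum fun y _ => ?_
      have h1 : #{x ∈ {x ∈ Ico u (u + L) ×ˢ Ico u' (u' + L) | ∀ p ∈ P, ¬ Ev p α β γ δ ε x} |
          ((x.1 : ZMod M), (x.2 : ZMod M)) = y} ≤
          #{s ∈ Ico u (u + L) | ((s : ℤ) : ZMod M) = y.1} *
            #{s ∈ Ico u' (u' + L) | ((s : ℤ) : ZMod M) = y.2} := by
        rw [← card_product]
        refine card_le_card fun x hx => ?_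
        simp only [mem_filter, mem_product] at hx ⊢
        obtain ⟨⟨⟨h1, h2⟩, -⟩, h3⟩ := hx
        rw [← h3]
        exact ⟨⟨h1, rfl⟩, h2, rfl⟩
      have h2 : (#{x ∈ {x ∈ Ico u (u + L) ×ˢ Ico u' (u' + L) | ∀ p ∈ P, ¬ Ev p α β γ δ ε x} |
          ((x.1 : ZMod M), (x.2 : ZMod M)) = y} : ℝ) ≤
          (#{s ∈ Ico u (u + L) | ((s : ℤ) : ZMod M) = y.1} : ℝ) *
            #{s ∈ Ico u' (u' + L) | ((s : ℤ) : ZMod M) = y.2} := by exact_mod_cast h1
      refine h2.trans ?_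
      have h3 := card_res hM0 u L y.1
      have h4 := card_res hM0 u' L y.2
      gcongr
    · intro x hx
      rw [mem_coe, mem_filter] at hx
      rw [mem_coe, hB, mem_filter]
      refine ⟨mem_univ _, fun i => ?_⟩
      rw [hcast, hcast, hBad, mem_filter]
      refine ⟨mem_univ _, fun h => hx.2 i.1 i.2 ?_⟩
      exact (Ev_iff α β γ δ ε x).2 h
  refine hfib.trans ?_
  rw [sum_const, nsmul_eq_mul]
  have hMp : (0 : ℝ) < M := by exact_mod_cast hM0
  calc (#B : ℝ) * (((L : ℝ) / M + 1) * ((L : ℝ) / M + 1))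
      ≤ ((∏ p ∈ P, (1 - prb p)) * (M : ℝ) ^ 2) * (((L : ℝ) / M + 1) * ((L : ℝ) / M + 1)) := by
        gcongr
    _ = (∏ p ∈ P, (1 - prb p)) * ((L : ℝ) + ∏ p ∈ P, (p : ℝ) ^ 2) ^ 2 := by
        rw [← hMR]
        field_simp

/-- **Large sums over primes.** -/
theorem exists_sum (w : ℤ) (hw : w ≠ 0) (X : ℝ) :
    ∃ P : Finset ℕ, (∀ p ∈ P, p.Prime ∧ 3 ≤ p ∧ ¬ (p : ℤ) ∣ w) ∧
      X < ∑ p ∈ P, 1 / (4 * (p : ℝ)) := by
  classical
  -- the good primes
  set S : Set ℕ := {p | p.Prime ∧ 3 ≤ p ∧ ¬ (p : ℤ) ∣ w} with hS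
  set g : ℕ → ℝ := S.indicator (fun n => 1 / (4 * (n : ℝ))) with hg
  have hg0 : ∀ n, 0 ≤ g n := by
    intro n
    rw [hg]
    exact Set.indicator_nonneg (fun _ _ => by positivity) _
  have hns : ¬ Summable g := by
    intro hs
    apply not_summable_one_div_on_primes
    have h4 : Summable fun n => 4 * g n := hs.mul_left 4
    have hfin : Summable (((Finset.range (max 3 (w.natAbs + 1)) : Finset ℕ) : Set ℕ).indicator
        (fun n : ℕ => (1 : ℝ) / n)) := by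
      refine summable_of_finite_support ?_
      exact (Finset.finite_toSet _).subset Set.support_indicator_subset
    refine Summable.of_nonneg_of_le (fun n => Set.indicator_nonneg (fun _ _ => by positivity) _) ?_
      (h4.add hfin)
    intro n
    by_cases hn : n ∈ {p : ℕ | p.Prime}
    · rw [Set.indicator_of_mem hn]
      by_cases hnS : n ∈ S
      · have h1 : g n = 1 / (4 * (n : ℝ)) := by rw [hg, Set.indicator_of_mem hnS]
        have h2 : 0 ≤ ((Finset.range (max 3 (w.natAbs + 1)) : Finset ℕ) : Set ℕ).indicator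
            (fun n : ℕ => (1 : ℝ) / n) n := Set.indicator_nonneg (fun _ _ => by positivity) _
        have h3 : 4 * g n = 1 / (n : ℝ) := by
          rw [h1]
          have : (n : ℝ) ≠ 0 := by exact_mod_cast (Nat.Prime.ne_zero hn)
          field_simp
        linarith
      · have hmem : n ∈ ((Finset.range (max 3 (w.natAbs + 1)) : Finset ℕ) : Set ℕ) := by
          rw [mem_coe, mem_range, lt_max_iff]
          by_cases h3 : 3 ≤ n
          · right
            have hd : (n : ℤ) ∣ w := by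
              by_contra hd
              exact hnS ⟨hn, h3, hd⟩
            have := Int.natAbs_le_of_dvd_ne_zero hd hw
            simp at this
            omega
          · left; omega
        rw [Set.indicator_of_mem hmem]
        have := hg0 n
        linarith
    · rw [Set.indicator_of_notMem hn]
      have h1 := hg0 n
      have h2 : 0 ≤ ((Finset.range (max 3 (w.natAbs + 1)) : Finset ℕ) : Set ℕ).indicator
            (fun n : ℕ => (1 : ℝ) / n) n := Set.indicator_nonneg (fun _ _ => by positivity) _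
      linarith
  -- large partial sums
  obtain ⟨F, hF⟩ : ∃ F : Finset ℕ, X < ∑ n ∈ F, g n := by
    by_contra hcon
    push Not at hcon
    exact hns (summable_of_sum_le hg0 hcon)
  refine ⟨F.filter (· ∈ S), fun p hp => (mem_filter.1 hp).2, ?_⟩
  have h1 : ∑ n ∈ F, g n = ∑ n ∈ F.filter (· ∈ S), 1 / (4 * (n : ℝ)) := by
    rw [sum_filter]
    refine sum_congr rfl fun n _ => ?_
    rw [hg, Set.indicator_apply]
  rw [← h1]
  exact hF

lemma prod_le_exp (P : Finset ℕ) (hP : ∀ p ∈ P, p.Prime) :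
    ∏ p ∈ P, (1 - prb p) ≤ Real.exp (-∑ p ∈ P, 1 / (4 * (p : ℝ))) := by
  rw [← sum_neg_distrib, Real.exp_sum]
  refine prod_le_prod (fun p hp => ?_) fun p hp => ?_
  · have := prb_le_one (hP p hp).one_le
    linarith
  · have h3 := prb_ge (hP p hp).two_le
    have h4 := Real.add_one_le_exp (-(1 / (4 * (p : ℝ))))
    linarith

end Pool.Agent.L5helper6.KM
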