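import Pool.Agent.L5helper6.KM.Cnt
import Pool.Agent.L5helper6.KM.Arith
import Pool.Agent.Y720.WL.Cy2

/-! Few coefficients for which the difference has finite order -/

set_option autoImplicit false

open Finset Pool.Agent.Y720.MZ

namespace Pool.Agent.L5helper6.KM

lemma dsc_cubic (a B₀ B₁ C₀ C₁ T : ℤ) : dsc a (B₀ + B₁ * T) (C₀ + C₁ * T) =
    (-4 * B₁ ^ 3) * T ^ 3 + (a ^ 2 * B₁ ^ 2 - 12 * B₀ * B₁ ^ 2 - 27 * C₁ ^ 2 + 18 * a * B₁ * C₁) * T ^ 2 +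
      (2 * a ^ 2 * B₀ * B₁ - 12 * B₀ ^ 2 * B₁ - 4 * a ^ 3 * C₁ - 54 * C₀ * C₁ +
        18 * a * (B₀ * C₁ + B₁ * C₀)) * T +
      (a ^ 2 * B₀ ^ 2 - 4 * B₀ ^ 3 - 4 * a ^ 3 * C₀ - 27 * C₀ ^ 2 + 18 * a * B₀ * C₀) := by
  rw [dsc]; ring

lemma dsc_zero_card (I : Finset ℤ) (a B₀ B₁ C₀ C₁ : ℤ) (hB : B₁ ≠ 0) :
    #{T ∈ I | dsc a (B₀ + B₁ * T) (C₀ + C₁ * T) = 0} ≤ 3 := by
  classical
  set P : Polynomial ℤ := Polynomial.C (-4 * B₁ ^ 3) * Polynomial.X ^ 3 +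
    Polynomial.C (a ^ 2 * B₁ ^ 2 - 12 * B₀ * B₁ ^ 2 - 27 * C₁ ^ 2 + 18 * a * B₁ * C₁) *
      Polynomial.X ^ 2 +
    Polynomial.C (2 * a ^ 2 * B₀ * B₁ - 12 * B₀ ^ 2 * B₁ - 4 * a ^ 3 * C₁ - 54 * C₀ * C₁ +
        18 * a * (B₀ * C₁ + B₁ * C₀)) * Polynomial.X +
    Polynomial.C (a ^ 2 * B₀ ^ 2 - 4 * B₀ ^ 3 - 4 * a ^ 3 * C₀ - 27 * C₀ ^ 2 + 18 * a * B₀ * C₀)
    with hP
  have hdeg : P.natDegree = 3 := by
    rw [hP]
    exact Polynomial.natDegree_cubic (by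
      have : B₁ ^ 3 ≠ 0 := pow_ne_zero 3 hB
      intro h0
      apply this
      linarith)
  have hP0 : P ≠ 0 := by
    intro h0
    rw [h0, Polynomial.natDegree_zero] at hdeg
    omega
  have hsub : {T ∈ I | dsc a (B₀ + B₁ * T) (C₀ + C₁ * T) = 0} ⊆ P.roots.toFinset := by
    intro T hT
    rw [mem_filter] at hT
    rw [Multiset.mem_toFinset, Polynomial.mem_roots hP0, Polynomial.IsRoot.def, hP]
    simp only [Polynomial.eval_add, Polynomial.eval_mul, Polynomial.eval_C, Polynomial.eval_pow,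
      Polynomial.eval_X]
    rw [← dsc_cubic]
    exact hT.2
  calc _ ≤ #P.roots.toFinset := card_le_card hsub
    _ ≤ P.roots.card := Multiset.toFinset_card_le _
    _ ≤ 3 := (Polynomial.card_roots' P).trans_eq hdeg

/-- the quartic with the coefficients `q` and the point `w` -/
def four (w q₁ q₂ q₃ q₄ : ℤ) : ℚ × (Fin 4 → ℚ) := ((w : ℚ), ![(q₁ : ℚ), q₂, q₃, q₄])

/-- **One prime suffices.** -/
lemma io_four {p : ℕ} (hp : p.Prime) (hp3 : 3 ≤ p) {w q₁ q₂ q₃ q₄ : ℤ} (hw : ¬ (p : ℤ) ∣ w)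
    (hN : (p : ℤ) ∣ nY w q₁ q₂ q₃) (hN2 : ¬ (p : ℤ) ^ 2 ∣ nY w q₁ q₂ q₃)
    (hR : ¬ (p : ℤ) ∣ nR w q₁ q₂ q₃ q₄)
    (hD : dsc q₂ (q₁ * q₃ - 4 * w ^ 2 * q₄) (q₁ ^ 2 * q₄ + w ^ 2 * q₃ ^ 2 - 4 * w ^ 2 * q₂ * q₄) ≠ 0) :
    IOt (four w q₁ q₂ q₃ q₄) := by
  have : Fact p.Prime := ⟨hp⟩
  refine ⟨?_, ?_⟩
  · have h1 : dsc (tA (four w q₁ q₂ q₃ q₄)) (tB (four w q₁ q₂ q₃ q₄)) (tC (four w q₁ q₂ q₃ q₄)) =
        ((dsc q₂ (q₁ * q₃ - 4 * w ^ 2 * q₄)
          (q₁ ^ 2 * q₄ + w ^ 2 * q₃ ^ 2 - 4 * w ^ 2 * q₂ * q₄) : ℤ) : ℚ) := by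
      simp only [tA, tB, tC, four, rb, rc, dsc]
      push_cast
      simp
    rw [h1]
    exact_mod_cast hD
  · intro h n hn
    letI : DecidableEq ℚ := Classical.decEq ℚ
    exact io_of_prime hp3 hw hN hN2 hR h n hn

lemma prime_not_dvd {p : ℕ} (hp : p.Prime) (hp3 : 3 ≤ p) {w : ℤ} (hw : ¬ (p : ℤ) ∣ w) (k m : ℕ) :
    ¬ (p : ℤ) ∣ 2 ^ k * w ^ m := by
  have hpi := Nat.prime_iff_prime_int.1 hp
  intro h
  rcases hpi.dvd_or_dvd h with h | h
  · have h2 := hpi.dvd_of_dvd_pow h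
    have := Int.le_of_dvd (by norm_num) h2
    omega
  · exact hw (hpi.dvd_of_dvd_pow h)

open Classical in
/-- **Few pairs of coefficients.** -/
theorem few_pairs {w : ℤ} (hw : w ≠ 0) (P : Finset ℕ)
    (hP : ∀ p ∈ P, p.Prime ∧ 3 ≤ p ∧ ¬ (p : ℤ) ∣ w) (q₁ q₂ s₀ t₀ : ℤ) (u u' : ℤ) (L : ℕ) :
    (#{x ∈ Ico u (u + L) ×ˢ Ico u' (u' + L) |
      ¬ IOt (four w q₁ q₂ (s₀ + x.1) (t₀ + x.2))} : ℝ) ≤
      (∏ p ∈ P, (1 - prb p)) * ((L : ℝ) + ∏ p ∈ P, (p : ℝ) ^ 2) ^ 2 + 3 * L := by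
  set α := q₁ * nX w q₁ q₂ + 8 * w ^ 4 * s₀ with hα
  set β := 8 * w ^ 4 with hβ
  set γ := 3 * nX w q₁ q₂ ^ 2 + 8 * w ^ 2 * q₂ * nX w q₁ q₂ +
    16 * w ^ 4 * (q₁ * s₀ - 4 * w ^ 2 * t₀) with hγ
  set δ := 16 * w ^ 4 * q₁ with hδ
  set ε := -(64 * w ^ 6) with hε
  have h1 := count_none P (fun p hp => (hP p hp).1) (α := α) (β := β) (γ := γ) (δ := δ) (ε := ε)
    (fun p hp => by
      have := prime_not_dvd (hP p hp).1 (hP p hp).2.1 (hP p hp).2.2 3 4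
      rw [hβ]
      norm_num at this
      exact this)
    (fun p hp => by
      have := prime_not_dvd (hP p hp).1 (hP p hp).2.1 (hP p hp).2.2 6 6
      rw [hε, dvd_neg]
      norm_num at this
      exact this) u u' L
  have hsub : {x ∈ Ico u (u + L) ×ˢ Ico u' (u' + L) |
      ¬ IOt (four w q₁ q₂ (s₀ + x.1) (t₀ + x.2))} ⊆
      {x ∈ Ico u (u + L) ×ˢ Ico u' (u' + L) | ∀ p ∈ P, ¬ Ev p α β γ δ ε x} ∪
      {x ∈ Ico u (u + L) ×ˢ Ico u' (u' + L) | dsc q₂ ((q₁ * (s₀ + x.1) - 4 * w ^ 2 * t₀) +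
        (-4 * w ^ 2) * x.2) ((q₁ ^ 2 * t₀ + w ^ 2 * (s₀ + x.1) ^ 2 - 4 * w ^ 2 * q₂ * t₀) +
          (q₁ ^ 2 - 4 * w ^ 2 * q₂) * x.2) = 0} := by
    intro x hx
    rw [mem_filter] at hx
    rw [mem_union, mem_filter, mem_filter]
    by_contra hcon
    rw [not_or, not_and, not_and] at hcon
    obtain ⟨g1, g2⟩ := hcon
    have g1 := g1 hx.1
    have g2 := g2 hx.1
    push Not at g1
    obtain ⟨p, hp, ⟨k1, k2⟩, k3⟩ := g1
    refine hx.2 (io_four (hP p hp).1 (hP p hp).2.1 (hP p hp).2.2 ?_ ?_ ?_ ?_)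
    · have e : nY w q₁ q₂ (s₀ + x.1) = α + β * x.1 := by rw [nY, hα, hβ]; ring
      rw [e]; exact k1
    · have e : nY w q₁ q₂ (s₀ + x.1) = α + β * x.1 := by rw [nY, hα, hβ]; ring
      rw [e]; exact k2
    · have e : nR w q₁ q₂ (s₀ + x.1) (t₀ + x.2) = γ + δ * x.1 + ε * x.2 := by
        rw [nR, hγ, hδ, hε]; ring
      rw [e]; exact k3
    · intro h0
      apply g2
      rw [← h0]
      congr 1 <;> ring
  have h2 : #{x ∈ Ico u (u + L) ×ˢ Ico u' (u' + L) | dsc q₂ ((q₁ * (s₀ + x.1) - 4 * w ^ 2 * t₀) +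
        (-4 * w ^ 2) * x.2) ((q₁ ^ 2 * t₀ + w ^ 2 * (s₀ + x.1) ^ 2 - 4 * w ^ 2 * q₂ * t₀) +
          (q₁ ^ 2 - 4 * w ^ 2 * q₂) * x.2) = 0} ≤ 3 * L := by
    rw [card_eq_sum_card_fiberwise (f := Prod.fst) (t := Ico u (u + L))]
    · calc _ ≤ ∑ s ∈ Ico u (u + (L : ℤ)), 3 := by
            refine sum_le_sum fun s _ => ?_
            refine le_trans ?_ (dsc_zero_card (Ico u' (u' + L)) q₂ (q₁ * (s₀ + s) - 4 * w ^ 2 * t₀)
              (-4 * w ^ 2) (q₁ ^ 2 * t₀ + w ^ 2 * (s₀ + s) ^ 2 - 4 * w ^ 2 * q₂ * t₀)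
              (q₁ ^ 2 - 4 * w ^ 2 * q₂) (by
                have : w ^ 2 ≠ 0 := pow_ne_zero 2 hw
                intro h0
                apply this
                linarith))
            refine card_le_card_of_injOn Prod.snd ?_ ?_
            · intro x hx
              simp only [coe_filter, mem_filter, mem_product, Set.mem_setOf_eq] at hx ⊢
              obtain ⟨⟨⟨k1, k2⟩, k3⟩, rfl⟩ := hx
              exact ⟨k2, k3⟩
            · intro x hx y hy hxy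
              simp only [coe_filter, mem_filter, mem_product, Set.mem_setOf_eq] at hx hy
              exact Prod.ext (hx.2.trans hy.2.symm) hxy
      _ = 3 * L := by
            rw [sum_const, Int.card_Ico, smul_eq_mul]
            simp [mul_comm]
    · intro x hx
      simp only [coe_filter, mem_product, Set.mem_setOf_eq] at hx
      exact hx.1.1
  have h3 : (#{x ∈ Ico u (u + L) ×ˢ Ico u' (u' + L) |
      ¬ IOt (four w q₁ q₂ (s₀ + x.1) (t₀ + x.2))} : ℝ) ≤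
      (#{x ∈ Ico u (u + L) ×ˢ Ico u' (u' + L) | ∀ p ∈ P, ¬ Ev p α β γ δ ε x} : ℝ) +
      (#{x ∈ Ico u (u + L) ×ˢ Ico u' (u' + L) | dsc q₂ ((q₁ * (s₀ + x.1) - 4 * w ^ 2 * t₀) +
        (-4 * w ^ 2) * x.2) ((q₁ ^ 2 * t₀ + w ^ 2 * (s₀ + x.1) ^ 2 - 4 * w ^ 2 * q₂ * t₀) +
          (q₁ ^ 2 - 4 * w ^ 2 * q₂) * x.2) = 0} : ℝ) := by
    exact_mod_cast (card_le_card hsub).trans (card_union_le _ _)
  have h4 : (#{x ∈ Ico u (u + L) ×ˢ Ico u' (u' + L) | dsc q₂ ((q₁ * (s₀ + x.1) - 4 * w ^ 2 * t₀) +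
        (-4 * w ^ 2) * x.2) ((q₁ ^ 2 * t₀ + w ^ 2 * (s₀ + x.1) ^ 2 - 4 * w ^ 2 * q₂ * t₀) +
          (q₁ ^ 2 - 4 * w ^ 2 * q₂) * x.2) = 0} : ℝ) ≤ 3 * (L : ℝ) := by exact_mod_cast h2
  convert h3.trans (add_le_add ?_ h4) using 1
  convert h1 using 3

open Classical in
/-- few pairs, for the number `w`, the bound `η` and the size `H` of the coefficients -/
def FewPairs (w : ℤ) (η : ℝ) (H : ℕ) : Prop :=
  ∀ q₁ q₂ s₀ t₀ : ℤ, (#{x ∈ Icc (-(H : ℤ)) H ×ˢ Icc (-(H : ℤ)) H |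
      ¬ IOt (four w q₁ q₂ (s₀ + x.1) (t₀ + x.2))} : ℝ) ≤ η * (2 * (H : ℝ) + 1) ^ 2

/-- **The primes decide.** -/
theorem fewPairs_of {w : ℤ} (hw : w ≠ 0) {η : ℝ} (hη : 0 < η) (P : Finset ℕ)
    (hP : ∀ p ∈ P, p.Prime ∧ 3 ≤ p ∧ ¬ (p : ℤ) ∣ w)
    (hPη : -Real.log (η / 8) ≤ ∑ p ∈ P, 1 / (4 * (p : ℝ))) (H : ℕ)
    (hH1 : ∏ p ∈ P, (p : ℝ) ^ 2 ≤ H) (hH2 : 6 / η ≤ H) : FewPairs w η H := by
  intro q₁ q₂ s₀ t₀
  have hPη' : ∏ p ∈ P, (1 - prb p) ≤ η / 8 := by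
    refine (prod_le_exp P fun p hp => (hP p hp).1).trans ?_
    rw [← Real.exp_log (show 0 < η / 8 by positivity)]
    exact Real.exp_le_exp.2 (by linarith)
  set M : ℝ := ∏ p ∈ P, (p : ℝ) ^ 2 with hM
  have h := few_pairs hw P hP q₁ q₂ s₀ t₀ (-(H : ℤ)) (-(H : ℤ)) (2 * H + 1)
  have e : Ico (-(H : ℤ)) (-(H : ℤ) + ((2 * H + 1 : ℕ) : ℤ)) = Icc (-(H : ℤ)) H := by
    ext x
    simp only [mem_Ico, mem_Icc]
    push_cast
    constructor <;> intro h <;> omega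
  rw [e] at h
  refine h.trans ?_
  have hH0 : (0 : ℝ) ≤ H := Nat.cast_nonneg H
  have hM1 : M ≤ 2 * (H : ℝ) + 1 := by linarith
  have hM0 : 0 ≤ M := prod_nonneg fun p _ => by positivity
  have hη6 : 6 ≤ η * (2 * (H : ℝ) + 1) := by
    rw [div_le_iff₀ hη] at hH2
    nlinarith
  push_cast
  set X : ℝ := 2 * (H : ℝ) + 1 with hX
  have hX0 : 0 < X := by positivity
  calc (∏ p ∈ P, (1 - prb p)) * (X + M) ^ 2 + 3 * X
      ≤ η / 8 * (X + X) ^ 2 + 3 * X := by gcongr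
    _ ≤ η * X ^ 2 := by nlinarith

/-- **Almost all pairs of coefficients are good, uniformly.** -/
theorem few_eps {w : ℤ} (hw : w ≠ 0) {η : ℝ} (hη : 0 < η) : ∃ H₀ : ℕ, ∀ H : ℕ, H₀ ≤ H →
    FewPairs w η H := by
  obtain ⟨P, hP, hPη⟩ := exists_sum w hw (-Real.log (η / 8))
  obtain ⟨H₀, hH₀⟩ := exists_nat_gt (max (∏ p ∈ P, (p : ℝ) ^ 2) (6 / η))
  refine ⟨H₀, fun H hH => fewPairs_of hw hη P hP hPη.le H ?_ ?_⟩
  · exact (le_max_left _ _).trans (hH₀.le.trans (by exact_mod_cast hH))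
  · exact (le_max_right _ _).trans (hH₀.le.trans (by exact_mod_cast hH))

open Classical in
/-- **For almost all `w`, uniformly.** -/
theorem few_eps_avg {η : ℝ} (hη : 0 < η) : ∃ H₀ : ℕ, ∀ W : ℕ,
    (#{w ∈ Icc (1 : ℤ) W | ¬ ∀ H : ℕ, H₀ ≤ H → FewPairs w η H} : ℝ) ≤ η * W := by
  have hsum : Summable fun m : ℕ => 1 / (m : ℝ) ^ 2 := Real.summable_one_div_nat_pow.2 (by norm_num)
  set C : ℝ := ∑' m : ℕ, 1 / (m : ℝ) ^ 2 with hC
  have hC0 : 0 ≤ C := tsum_nonneg fun m => by positivity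
  obtain ⟨P, hP, hPη⟩ := exists_sum 1 one_ne_zero (-Real.log (η / 8) + (C + 1) / (4 * η))
  obtain ⟨H₀, hH₀⟩ := exists_nat_gt (max (∏ p ∈ P, (p : ℝ) ^ 2) (6 / η))
  refine ⟨H₀, fun W => ?_⟩
  -- the sum over the prime divisors
  set D : ℤ → ℝ := fun w => ∑ p ∈ P.filter (fun p : ℕ => (p : ℤ) ∣ w), 1 / (p : ℝ) with hD
  have hsub : {w ∈ Icc (1 : ℤ) W | ¬ ∀ H : ℕ, H₀ ≤ H → FewPairs w η H} ⊆
      {w ∈ Icc (1 : ℤ) W | (C + 1) / η ≤ D w} := by
    intro w hw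
    rw [mem_filter] at hw ⊢
    refine ⟨hw.1, ?_⟩
    by_contra hcon
    push Not at hcon
    refine hw.2 fun H hH => ?_
    have hw0 : w ≠ 0 := by
      have := (mem_Icc.1 hw.1).1
      omega
    have hsplit : ∑ p ∈ P, 1 / (4 * (p : ℝ)) = D w / 4 +
        ∑ p ∈ P.filter (fun p : ℕ => ¬ (p : ℤ) ∣ w), 1 / (4 * (p : ℝ)) := by
      rw [← sum_filter_add_sum_filter_not P (fun p : ℕ => (p : ℤ) ∣ w)]
      congr 1
      rw [hD]
      simp only
      rw [sum_div]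
      refine sum_congr rfl fun p hp => ?_
      have : (p : ℝ) ≠ 0 := by
        exact_mod_cast (hP p (mem_filter.1 hp).1).1.ne_zero
      field_simp
    refine fewPairs_of hw0 hη (P.filter fun p : ℕ => ¬ (p : ℤ) ∣ w) (fun p hp => ?_) ?_ H ?_ ?_
    · rw [mem_filter] at hp
      exact ⟨(hP p hp.1).1, (hP p hp.1).2.1, hp.2⟩
    · rw [hsplit] at hPη
      have : (C + 1) / (4 * η) = (C + 1) / η / 4 := by field_simp
      rw [this] at hPη
      linarith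
    · have h1 : ∏ p ∈ P.filter (fun p : ℕ => ¬ (p : ℤ) ∣ w), (p : ℝ) ^ 2 ≤
          ∏ p ∈ P, (p : ℝ) ^ 2 := by
        refine prod_le_prod_of_subset_of_one_le (filter_subset _ _) (fun p _ => by positivity)
          fun p hp _ => ?_
        have : (1 : ℝ) ≤ p := by exact_mod_cast (hP p hp).1.one_le
        nlinarith
      exact h1.trans ((le_max_left _ _).trans (hH₀.le.trans (by exact_mod_cast hH)))
    · exact (le_max_right _ _).trans (hH₀.le.trans (by exact_mod_cast hH))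
  -- Markov
  have hmark : (#{w ∈ Icc (1 : ℤ) W | (C + 1) / η ≤ D w} : ℝ) * ((C + 1) / η) ≤
      ∑ w ∈ Icc (1 : ℤ) W, D w := by
    calc _ = ∑ w ∈ Icc (1 : ℤ) W with (C + 1) / η ≤ D w, (C + 1) / η := by
          rw [sum_const, nsmul_eq_mul]
      _ ≤ ∑ w ∈ Icc (1 : ℤ) W with (C + 1) / η ≤ D w, D w :=
          sum_le_sum fun w hw => (mem_filter.1 hw).2
      _ ≤ ∑ w ∈ Icc (1 : ℤ) W, D w := by
          refine sum_le_sum_of_subset_of_nonneg (filter_subset _ _) fun w _ _ => ?_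
          exact sum_nonneg fun p _ => by positivity
  have hswap : ∑ w ∈ Icc (1 : ℤ) W, D w ≤ C * W := by
    have h1 : ∑ w ∈ Icc (1 : ℤ) W, D w =
        ∑ p ∈ P, (#{w ∈ Icc (1 : ℤ) W | (p : ℤ) ∣ w} : ℝ) * (1 / (p : ℝ)) := by
      simp only [hD, sum_filter]
      rw [sum_comm]
      refine sum_congr rfl fun p _ => ?_
      rw [← sum_filter, sum_const, nsmul_eq_mul]
    rw [h1]
    calc _ ≤ ∑ p ∈ P, (W : ℝ) * (1 / (p : ℝ) ^ 2) := by
          refine sum_le_sum fun p hp => ?_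
          have hp0 : 0 < p := (hP p hp).1.pos
          have hpR : (0 : ℝ) < p := by exact_mod_cast hp0
          have h2 : #{w ∈ Icc (1 : ℤ) W | (p : ℤ) ∣ w} ≤ W / p := by
            have h3 : #{w ∈ Icc (1 : ℤ) W | (p : ℤ) ∣ w} ≤ #(Icc 1 (W / p)) := by
              refine card_le_card_of_injOn (fun w => (w / p).toNat) ?_ ?_
              · intro w hw
                simp only [coe_filter, mem_Icc, Set.mem_setOf_eq, coe_Icc, Set.mem_Icc] at hw ⊢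
                obtain ⟨⟨k1, k2⟩, m, rfl⟩ := hw
                have hp' : (0 : ℤ) < p := by exact_mod_cast hp0
                rw [Int.mul_ediv_cancel_left _ hp'.ne']
                have hm : 0 < m := by
                  by_contra hm
                  push Not at hm
                  nlinarith
                refine ⟨by omega, ?_⟩
                rw [Nat.le_div_iff_mul_le hp0]
                have : ((m.toNat * p : ℕ) : ℤ) ≤ W := by
                  push_cast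
                  rw [Int.toNat_of_nonneg hm.le]
                  linarith
                exact_mod_cast this
              · intro w hw w' hw' hww
                simp only [coe_filter, mem_Icc, Set.mem_setOf_eq] at hw hw'
                obtain ⟨⟨k1, k2⟩, m, rfl⟩ := hw
                obtain ⟨⟨k3, k4⟩, m', rfl⟩ := hw'
                have hp' : (0 : ℤ) < p := by exact_mod_cast hp0
                simp only [Int.mul_ediv_cancel_left _ hp'.ne'] at hww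
                have hm : 0 < m := by
                  by_contra hm
                  push Not at hm
                  nlinarith
                have hm' : 0 < m' := by
                  by_contra hm'
                  push Not at hm'
                  nlinarith
                have : m = m' := by omega
                rw [this]
            simpa using h3
          have h4 : (#{w ∈ Icc (1 : ℤ) W | (p : ℤ) ∣ w} : ℝ) ≤ (W : ℝ) / p := by
            refine le_trans ?_ Nat.cast_div_le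
            exact_mod_cast h2
          calc _ ≤ (W : ℝ) / p * (1 / p) := by gcongr
            _ = (W : ℝ) * (1 / (p : ℝ) ^ 2) := by field_simp
      _ = (W : ℝ) * ∑ p ∈ P, 1 / (p : ℝ) ^ 2 := by rw [mul_sum]
      _ ≤ (W : ℝ) * C := by
          have : ∑ p ∈ P, 1 / (p : ℝ) ^ 2 ≤ C :=
            hsum.sum_le_tsum P fun m _ => by positivity
          gcongr
      _ = C * W := mul_comm _ _
  have h5 : (#{w ∈ Icc (1 : ℤ) W | (C + 1) / η ≤ D w} : ℝ) ≤ η * W := by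
    have h6 := hmark.trans hswap
    have h7 : 0 < (C + 1) / η := by positivity
    have hW : (0 : ℝ) ≤ W := Nat.cast_nonneg W
    rw [← le_div_iff₀ h7] at h6
    refine h6.trans ?_
    rw [div_le_iff₀ h7]
    have : η * W * ((C + 1) / η) = (C + 1) * W := by field_simp
    rw [this]
    nlinarith
  exact le_trans (by exact_mod_cast card_le_card hsub) h5

end Pool.Agent.L5helper6.KM
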