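import Pool.Agent.L5helper6.KM.Few
import Pool.Agent.L5helper6.KM.Avg
import Pool.Agent.L5helper15.KD.Ad

/-! The coefficients on the lines through the origin -/

set_option autoImplicit false

open MvPolynomial Pool.Agent.Y720.MZ Pool.Agent.Results.MP_ed3816_nt.OpenAwayFromTorsion

namespace Pool.Agent.L5helper6.KM

lemma rst_monomial {F : Type} [Field F] {n : ℕ} (i : Fin n) (d : Fin n →₀ ℕ) (r : F) (k : ℕ) :
    (aeval (fun l : Fin n => Polynomial.C (0 : F) +
      Polynomial.C ((Pi.single i 1 : Fin n → F) l) * Polynomial.X) (monomial d r)).coeff k =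
      (monomial d r).coeff (Finsupp.single i k) := by
  classical
  rw [aeval_monomial, coeff_monomial]
  by_cases hd : ∃ l, l ≠ i ∧ d l ≠ 0
  · obtain ⟨l, hl, hdl⟩ := hd
    have h1 : d.prod (fun (l : Fin n) (m : ℕ) => (Polynomial.C (0 : F) +
      Polynomial.C ((Pi.single i 1 : Fin n → F) l) * Polynomial.X) ^ m) = 0 := by
      rw [Finsupp.prod, Finset.prod_eq_zero (Finsupp.mem_support_iff.2 hdl)]
      rw [Pi.single_eq_of_ne hl]
      simp [hdl]
    rw [h1, mul_zero, Polynomial.coeff_zero, if_neg]
    rintro rfl
    rw [Finsupp.single_apply, if_neg (Ne.symm hl)] at hdl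
    exact hdl rfl
  · push Not at hd
    have h2 : d = Finsupp.single i (d i) := by
      ext l
      by_cases hl : l = i
      · subst hl; simp
      · rw [Finsupp.single_apply, if_neg (Ne.symm hl)]
        exact hd l hl
    rw [h2, Finsupp.prod_single_index (by simp)]
    simp only [Pi.single_eq_same, map_one, one_mul, map_zero, zero_add]
    rw [← Polynomial.C_eq_algebraMap, Polynomial.coeff_C_mul, Polynomial.coeff_X_pow]
    by_cases hk : k = d i
    · subst hk
      simp
    · rw [if_neg hk, mul_zero, if_neg]
      intro h3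
      apply hk
      have := DFunLike.congr_fun h3 i
      simp at this
      exact this.symm

/-- the coefficients on the line through the origin -/
lemma rst_zero {F : Type} [Field F] {n : ℕ} (g : MvPolynomial (Fin n) F) (i : Fin n) (k : ℕ) :
    (rst g (fun _ => 0) (Pi.single i 1)).coeff k = g.coeff (Finsupp.single i k) := by
  induction g using MvPolynomial.induction_on' with
  | monomial d r => exact rst_monomial i d r k
  | add p q hp hq =>
    have : rst (p + q) (fun _ => 0) (Pi.single i 1) =
      rst p (fun _ => 0) (Pi.single i 1) + rst q (fun _ => 0) (Pi.single i 1) := by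
      simp only [rst, map_add]
    rw [this, Polynomial.coeff_add, hp, hq, coeff_add]

/-- the curve in the direction `i` -/
lemma th_zero {n : ℕ} (g : MvPolynomial (Fin n) ℤ) (i : Fin n) (w : ℤ) :
    th (map (Int.castRingHom ℚ) g) (Pi.single i 1) (fun _ => 0) (w : ℚ) =
      four w (g.coeff (Finsupp.single i 1)) (g.coeff (Finsupp.single i 2))
        (g.coeff (Finsupp.single i 3)) (g.coeff (Finsupp.single i 4)) := by
  rw [th, four]
  refine Prod.ext rfl ?_
  funext k
  simp only [cq]
  rw [rst_zero, coeff_map]
  fin_cases k <;> rfl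

/-- infinite order over the larger fields -/
lemma moves_map {K : Type} [Field K] [CharZero K] {F : Type} [Field F] [CharZero F] {n : ℕ}
    {f : MvPolynomial (Fin n) K} {P : (Fin n → K) × K} (hP : OnCover f P) (φ : K →+* F)
    {j : Fin n} (h : IOt (th f (Pi.single j 1) P.1 P.2)) : Moves (map φ f) (image φ P) j := by
  refine (Pool.Agent.L5helper15.KD.moves_iff (onCover_image φ hP)).2 ?_
  have hsi : (fun k => φ ((Pi.single j 1 : Fin n → K) k)) = Pi.single j 1 := by
    funext k
    by_cases h : k = j
    · subst h; simp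
    · rw [Pi.single_eq_of_ne h, Pi.single_eq_of_ne h, map_zero]
  have h1 := io_map φ h
  have h2 : ((φ (th f (Pi.single j 1) P.1 P.2).1,
      fun k => φ ((th f (Pi.single j 1) P.1 P.2).2 k)) : F × (Fin 4 → F)) =
      th (map φ f) (Pi.single j 1) (image φ P).1 (image φ P).2 := by
    refine Prod.ext rfl ?_
    funext k
    simp only [th, cq, image]
    rw [← Polynomial.coeff_map, rst_map, hsi]
  rw [h2] at h1
  exact h1

/-- infinite order over the fields of characteristic zero -/
lemma io_field {n : ℕ} (F : MvPolynomial (Fin n) ℤ) (w : ℤ) (j : Fin n)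
    (h : IOt (th (map (Int.castRingHom ℚ) F) (Pi.single j 1) (fun _ => 0) (w : ℚ)))
    (L : Type) [Field L] [CharZero L] :
    IOt (th (map (Int.castRingHom L) F) (Pi.single j 1) (fun _ => 0) (w : L)) := by
  have h1 := io_map (algebraMap ℚ L) h
  have hm : map (algebraMap ℚ L) (map (Int.castRingHom ℚ) F) = map (Int.castRingHom L) F := by
    have e : (algebraMap ℚ L).comp (Int.castRingHom ℚ) = Int.castRingHom L := RingHom.ext_int _ _
    rw [map_map, e]
  have h2 : ((algebraMap ℚ L (th (map (Int.castRingHom ℚ) F) (Pi.single j 1) (fun _ => 0)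
      (w : ℚ)).1, fun k => algebraMap ℚ L ((th (map (Int.castRingHom ℚ) F) (Pi.single j 1)
      (fun _ => 0) (w : ℚ)).2 k)) : L × (Fin 4 → L)) =
      th (map (Int.castRingHom L) F) (Pi.single j 1) (fun _ => 0) (w : L) := by
    refine Prod.ext (by simp [th]) ?_
    funext k
    simp only [th, cq]
    rw [rst_zero, rst_zero, ← hm, coeff_map, coeff_map, coeff_map]
  rw [h2] at h1
  exact h1

end Pool.Agent.L5helper6.KM
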