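import Mathlib

/-! Pairs of residues: the events at the primes and their probabilities -/

set_option autoImplicit false

open Finset

namespace Pool.Agent.L5helper6.KM

section zmod

variable (p : ℕ) [hp : Fact p.Prime]

instance neZero_sq : NeZero (p ^ 2) := ⟨pow_ne_zero 2 hp.out.ne_zero⟩

lemma pcast_mul_eq_zero (m : ℕ) : (p : ZMod (p ^ 2)) * (m : ZMod (p ^ 2)) = 0 ↔ p ∣ m := by
  rw [← Nat.cast_mul, ZMod.natCast_eq_zero_iff, pow_two]
  exact Nat.mul_dvd_mul_iff_left hp.out.pos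

lemma pcast_mul_int (z : ℤ) : (p : ZMod (p ^ 2)) * (z : ZMod (p ^ 2)) = 0 ↔ (p : ℤ) ∣ z := by
  have h1 : (p : ZMod (p ^ 2)) * (z : ZMod (p ^ 2)) = (((p : ℤ) * z : ℤ) : ZMod (p ^ 2)) := by
    push_cast; rfl
  rw [h1, ZMod.intCast_zmod_eq_zero_iff_dvd]
  push_cast
  rw [pow_two]
  exact mul_dvd_mul_iff_left (by exact_mod_cast hp.out.ne_zero)

lemma int_zero (z : ℤ) : (z : ZMod (p ^ 2)) = 0 ↔ (p : ℤ) ^ 2 ∣ z := by
  rw [ZMod.intCast_zmod_eq_zero_iff_dvd]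
  push_cast
  rfl

lemma card_ker : #{z : ZMod (p ^ 2) | (p : ZMod (p ^ 2)) * z = 0} = p := by
  have h : #(range p) = #{z : ZMod (p ^ 2) | (p : ZMod (p ^ 2)) * z = 0} := by
    refine card_nbij' (fun k => ((p * k : ℕ) : ZMod (p ^ 2))) (fun z => z.val / p) ?_ ?_ ?_ ?_
    · intro k hk
      simp only [coe_filter, mem_univ, true_and, Set.mem_setOf_eq]
      rw [pcast_mul_eq_zero]
      exact dvd_mul_right _ _
    · intro z hz
      simp only [coe_range, Set.mem_Iio]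
      have := ZMod.val_lt z
      rw [Nat.div_lt_iff_lt_mul hp.out.pos]
      exact this.trans_eq (pow_two p)
    · intro k hk
      simp only [coe_range, Set.mem_Iio] at hk
      simp only
      rw [ZMod.val_natCast, Nat.mod_eq_of_lt, Nat.mul_div_cancel_left _ hp.out.pos]
      rw [pow_two]
      exact Nat.mul_lt_mul_of_pos_left hk hp.out.pos
    · intro z hz
      simp only [coe_filter, mem_univ, true_and, Set.mem_setOf_eq] at hz
      rw [← ZMod.natCast_zmod_val z, pcast_mul_eq_zero] at hz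
      simp only
      rw [Nat.mul_div_cancel' hz, ZMod.natCast_zmod_val]
  rw [← h, card_range]

/-- a bijection of the residues -/
lemma card_aff (P : ZMod (p ^ 2) → Prop) [DecidablePred P] {u : ZMod (p ^ 2)} (hu : IsUnit u)
    (c : ZMod (p ^ 2)) : #{z : ZMod (p ^ 2) | P (c + u * z)} = #{z : ZMod (p ^ 2) | P z} := by
  obtain ⟨u, rfl⟩ := hu
  refine card_nbij' (fun z => c + u * z) (fun z => (↑u⁻¹ : ZMod (p ^ 2)) * (z - c)) ?_ ?_ ?_ ?_
  · intro z hz
    simpa using hz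
  · intro z hz
    simp only [coe_filter, mem_univ, true_and, Set.mem_setOf_eq] at hz ⊢
    rw [Units.mul_inv_cancel_left]
    simpa using hz
  · intro z _
    simp
  · intro z _
    simp

lemma card_ker' : #{z : ZMod (p ^ 2) | (p : ZMod (p ^ 2)) * z = 0 ∧ z ≠ 0} = p - 1 := by
  have h1 : ({z : ZMod (p ^ 2) | (p : ZMod (p ^ 2)) * z = 0 ∧ z ≠ 0} : Finset _) =
      ({z : ZMod (p ^ 2) | (p : ZMod (p ^ 2)) * z = 0} : Finset _).erase 0 := by
    ext z
    simp only [mem_filter, mem_univ, true_and, mem_erase]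
    tauto
  rw [h1, card_erase_of_mem (by simp), card_ker]

lemma card_nker : #{z : ZMod (p ^ 2) | ¬ (p : ZMod (p ^ 2)) * z = 0} = p ^ 2 - p := by
  have h := card_filter_add_card_filter_not (s := (univ : Finset (ZMod (p ^ 2))))
    (fun z => (p : ZMod (p ^ 2)) * z = 0)
  rw [card_ker, card_univ, ZMod.card] at h
  omega

variable (α β γ δ ε : ZMod (p ^ 2))

/-- the event at `p` -/
def Evz (x : ZMod (p ^ 2) × ZMod (p ^ 2)) : Prop :=
  ((p : ZMod (p ^ 2)) * (α + β * x.1) = 0 ∧ α + β * x.1 ≠ 0) ∧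
    ¬ (p : ZMod (p ^ 2)) * (γ + δ * x.1 + ε * x.2) = 0

instance : DecidablePred (Evz p α β γ δ ε) := fun _ => inferInstanceAs (Decidable (_ ∧ _))

lemma card_ev (hβ : IsUnit β) (hε : IsUnit ε) :
    #{x | Evz p α β γ δ ε x} = (p - 1) * (p ^ 2 - p) := by
  have h1 : #{x | Evz p α β γ δ ε x} =
      ∑ s ∈ ({s : ZMod (p ^ 2) | (p : ZMod (p ^ 2)) * (α + β * s) = 0 ∧ α + β * s ≠ 0} : Finset _),
        #{t : ZMod (p ^ 2) | ¬ (p : ZMod (p ^ 2)) * (γ + δ * s + ε * t) = 0} := by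
    rw [card_eq_sum_card_fiberwise (f := Prod.fst) (t := ({s : ZMod (p ^ 2) |
      (p : ZMod (p ^ 2)) * (α + β * s) = 0 ∧ α + β * s ≠ 0} : Finset _))]
    · refine sum_congr rfl fun s hs => ?_
      refine card_nbij' Prod.snd (fun t => (s, t)) ?_ ?_ ?_ ?_
      · rintro ⟨a, b⟩ hab
        simp only [Evz, coe_filter, mem_filter, mem_univ, true_and, Set.mem_setOf_eq] at hab ⊢
        obtain ⟨⟨h1, h2⟩, rfl⟩ := hab
        exact h2
      · intro t ht
        simp only [Evz, coe_filter, mem_filter, mem_univ, true_and, Set.mem_setOf_eq] at hs ht ⊢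
        exact ⟨⟨hs, ht⟩, trivial⟩
      · rintro ⟨a, b⟩ hab
        simp only [Evz, coe_filter, mem_filter, mem_univ, true_and, Set.mem_setOf_eq] at hab ⊢
        rw [hab.2]
      · intro t _
        rfl
    · intro x hx
      simp only [Evz, coe_filter, mem_univ, true_and, Set.mem_setOf_eq] at hx ⊢
      exact hx.1
  rw [h1]
  have h2 : ∀ s ∈ ({s : ZMod (p ^ 2) | (p : ZMod (p ^ 2)) * (α + β * s) = 0 ∧
      α + β * s ≠ 0} : Finset _),
      #{t : ZMod (p ^ 2) | ¬ (p : ZMod (p ^ 2)) * (γ + δ * s + ε * t) = 0} = p ^ 2 - p := by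
    intro s _
    rw [card_aff p (fun z => ¬ (p : ZMod (p ^ 2)) * z = 0) hε (γ + δ * s), card_nker]
  rw [sum_congr rfl h2, sum_const, smul_eq_mul,
    card_aff p (fun z => (p : ZMod (p ^ 2)) * z = 0 ∧ z ≠ 0) hβ α, card_ker']

/-- the probability of the event -/
noncomputable def prb (p : ℕ) : ℝ := ((p : ℝ) - 1) ^ 2 / (p : ℝ) ^ 3

lemma card_bad (hβ : IsUnit β) (hε : IsUnit ε) :
    (#{x | ¬ Evz p α β γ δ ε x} : ℝ) = (1 - prb p) * ((p : ℝ) ^ 2) ^ 2 := by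
  have h := card_filter_add_card_filter_not
    (s := (univ : Finset (ZMod (p ^ 2) × ZMod (p ^ 2)))) (Evz p α β γ δ ε)
  rw [card_ev p α β γ δ ε hβ hε, card_univ, Fintype.card_prod, ZMod.card] at h
  have h' : (((p - 1 : ℕ) : ℝ)) * ((p ^ 2 - p : ℕ) : ℝ) + (#{x | ¬ Evz p α β γ δ ε x} : ℝ) =
      (p : ℝ) ^ 2 * (p : ℝ) ^ 2 := by exact_mod_cast h
  have h1 : ((p - 1 : ℕ) : ℝ) = (p : ℝ) - 1 := by
    rw [Nat.cast_sub hp.out.one_le]; simp
  have h2 : ((p ^ 2 - p : ℕ) : ℝ) = (p : ℝ) ^ 2 - p := by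
    rw [Nat.cast_sub (by nlinarith [hp.out.one_le])]; push_cast; ring
  rw [h1, h2] at h'
  have hp0 : (p : ℝ) ≠ 0 := by exact_mod_cast hp.out.ne_zero
  have h3 : prb p * ((p : ℝ) ^ 2) ^ 2 = ((p : ℝ) - 1) * ((p : ℝ) ^ 2 - p) := by
    rw [prb]; field_simp
  linear_combination h' + h3

end zmod

lemma prb_ge {p : ℕ} (hp : 2 ≤ p) : 1 / (4 * (p : ℝ)) ≤ prb p := by
  have h : (2 : ℝ) ≤ p := by exact_mod_cast hp
  rw [prb, div_le_div_iff₀ (by positivity) (by positivity)]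
  nlinarith [mul_nonneg (by linarith : (0 : ℝ) ≤ p) (sq_nonneg ((p : ℝ) - 2)),
    mul_nonneg (mul_nonneg (by linarith : (0 : ℝ) ≤ p) (by linarith : (0 : ℝ) ≤ p))
      (by linarith : (0 : ℝ) ≤ p - 2)]

lemma prb_le_one {p : ℕ} (hp : 1 ≤ p) : prb p ≤ 1 := by
  have h : (1 : ℝ) ≤ p := by exact_mod_cast hp
  rw [prb, div_le_one (by positivity)]
  nlinarith [mul_nonneg (sq_nonneg (p : ℝ)) (by linarith : (0 : ℝ) ≤ p - 1)]

/-- the residues in an interval -/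
lemma card_res {M : ℕ} (hM : 0 < M) (u : ℤ) (L : ℕ) (x : ZMod M) :
    (#{s ∈ Ico u (u + L) | ((s : ℤ) : ZMod M) = x} : ℝ) ≤ (L : ℝ) / M + 1 := by
  have : NeZero M := ⟨hM.ne'⟩
  have h1 : ({s ∈ Ico u (u + L) | ((s : ℤ) : ZMod M) = x} : Finset ℤ) =
      {s ∈ Ico u (u + L) | s ≡ (x.val : ℤ) [ZMOD M]} := by
    refine filter_congr fun s _ => ?_
    rw [← ZMod.intCast_eq_intCast_iff, Int.cast_natCast, ZMod.natCast_zmod_val]
  have h2 := Int.Ico_filter_modEq_card u (u + L) (r := (M : ℤ)) (by exact_mod_cast hM)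
    (x.val : ℤ)
  rw [h1]
  have h3 : ((#{s ∈ Ico u (u + L) | s ≡ (x.val : ℤ) [ZMOD M]} : ℤ) : ℚ) ≤ (L : ℚ) / M + 1 := by
    rw [h2]
    push_cast
    refine max_le ?_ (by positivity)
    have hM' : (0 : ℚ) < M := by exact_mod_cast hM
    have e1 := Int.ceil_lt_add_one (((u : ℚ) + L - x.val) / M)
    have e2 := Int.le_ceil (((u : ℚ) - x.val) / M)
    have e3 : ((u : ℚ) + L - x.val) / M = ((u : ℚ) - x.val) / M + L / M := by
      field_simp; ring
    rw [e3] at e1 ⊢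
    linarith
  have h4 : ((#{s ∈ Ico u (u + L) | s ≡ (x.val : ℤ) [ZMOD M]} : ℚ) : ℝ) ≤
      (((L : ℚ) / M + 1 : ℚ) : ℝ) := by exact_mod_cast h3
  push_cast at h4
  exact h4

end Pool.Agent.L5helper6.KM
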